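import Pool.Agent.helper1.RI.Spec

/-!
# Row ri:RED (helper20): THE REDUCTION (assembly)
-/

set_option autoImplicit false

open Complex Metric Set Filter Topology MeasureTheory
open JX LAT

noncomputable section

namespace RI

theorem RED (hN : NRF_stmt) (hI : ILI_stmt) (hM : MIL_stmt) (hC : MCH_stmt) (hJ : JSB_stmt) (hH : XHM_stmt) (hO : XMO_stmt) : RED_stmt := by
  intro d A B μ hd hR hμ
  have hvol : 0 < volume (JF (sph d A B)) := lt_of_lt_of_le hμ.2.2.2.1 (measure_mono fun z hz => hμ.2.2.1 z hz)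
  obtain ⟨n, D, A₁, B₁, M, s, f, hn, hD, hR1, hsph, hdet, hs, hG, hdeg, hcA, hcB⟩ := hN d A B hd hR hvol
  have h1 : ILF D A₁ B₁ μ := hI d A B μ n D A₁ B₁ (by omega) hR hn hR1 hsph hμ
  have h2 := hM D M A₁ B₁ μ (by omega) hdet hR1 h1
  rw [hcA, hcB] at h2
  have hRf : RP D f.P f.Q := ⟨f.cop, by rw [max_eq_left f.lt.le, hdeg]⟩
  have hsf := ((hH D f.P f.Q).2.2.2 s hs hRf).2
  obtain ⟨m1, m2, m3, m4, m5⟩ := h2
  rw [hsf] at m3
  refine ⟨f, mpb M.adj μ, hG, ⟨m1, m2, ?_, m4, ?_⟩, hC M.adj μ (hO M hdet).1⟩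
  · intro z hz
    apply hJ f hG z
    rw [hdeg]
    exact m3 z hz
  · have e : ∀ z, (Polynomial.C s * f.P).eval z / (Polynomial.C s * f.Q).eval z = f.ev z := by
      intro z
      rw [Polynomial.eval_mul, Polynomial.eval_mul, Polynomial.eval_C, mul_div_mul_left _ _ hs]
      rfl
    have e' : (fun w => (Polynomial.C s * f.P).eval w / (Polynomial.C s * f.Q).eval w) = f.ev := funext e
    filter_upwards [m5] with z hz
    rw [e', e] at hz
    exact hz

end RI
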