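import Pool.Agent.helper55.RI.SpecV
import Pool.Agent.helper71.RI.X7

/-!
# Project rg (MP_2bd605_lc), module V4: evaluation of code words with a clock
-/

set_option autoImplicit false

namespace Pool.Agent.RI

open Pool.Agent.helper62 Prog Function Pool.Agent.helper81.PL

theorem V4_min (N b m : ℕ) (hb : 1 ≤ b) :
    citer N m (fun y : ℕ => b * y) 1 = min (b ^ m) N := by
  unfold citer
  induction m with
  | zero => rfl
  | succ m ih =>
    rw [iterate_succ_apply', ih]
    change min (b * min (b ^ m) N) N = _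
    rw [pow_succ, mul_comm (b ^ m) b]
    rcases le_total (b ^ m) N with h | h
    · rw [min_eq_left h]
    · rw [min_eq_right h, min_eq_right (Nat.le_mul_of_pos_left N hb),
        min_eq_right (h.trans (Nat.le_mul_of_pos_left _ hb))]

theorem V4_pt_min : PT (fun t : W × ℕ × ℕ => min ((t.1.length + 2) ^ t.2.1) t.2.2) := by
  have h : PT (fun t : W × ℕ × ℕ => citer t.2.2 t.2.1 (fun y : ℕ => (t.1.length + 2) * y) 1) := by
    fun_prop
  have e : (fun t : W × ℕ × ℕ => min ((t.1.length + 2) ^ t.2.1) t.2.2) =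
      fun t : W × ℕ × ℕ => citer t.2.2 t.2.1 (fun y : ℕ => (t.1.length + 2) * y) 1 := by
    funext t
    rw [V4_min _ _ _ (by omega)]
  rw [e]
  exact h

theorem V4_pt_gstep : PT (fun p : List Ins × (ℕ × List W) => gstep p.1 p.2) := by
  have h : PT (fun p : List Ins × (ℕ × List W) =>
      (p.1[p.2.1]?).elim p.2 (fun i => X7_st i p.2)) := by
    refine pt_optElim (o := fun p : List Ins × (ℕ × List W) => p.1[p.2.1]?)
      (f := fun p : List Ins × (ℕ × List W) => p.2)
      (g := fun (p : List Ins × (ℕ × List W)) (i : Ins) => X7_st i p.2) (by fun_prop)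
      (by fun_prop) ?_
    exact PT.comp (f := fun q : (List Ins × (ℕ × List W)) × Ins => (q.1.2, q.2)) X7_pt_st
      (by fun_prop)
  have e : (fun p : List Ins × (ℕ × List W) => gstep p.1 p.2) =
      fun p : List Ins × (ℕ × List W) => (p.1[p.2.1]?).elim p.2 (fun i => X7_st i p.2) := by
    funext p
    exact X7_gstep p.1 p.2
  rw [e]
  exact h

theorem V4_pt (P : W → List Ins × ℕ × ℕ) (hP : PT P) :
    PT (fun t : W × W × ℕ => evc (P t.1) t.2.1 t.2.2) := by
  have hn : PT (fun t : W × W × ℕ => min ((t.2.1.length + 2) ^ (P t.1).2.2) t.2.2) :=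
    PT.comp (f := fun t : W × W × ℕ => (t.2.1, (P t.1).2.2, t.2.2)) V4_pt_min (by fun_prop)
  have hg : PT (fun t : W × W × ℕ =>
      ((0, t.2.1 :: List.replicate (P t.1).2.1 []) : ℕ × List W)) := by fun_prop
  have hs : PT (fun p : (W × W × ℕ) × (ℕ × List W) => gstep (P p.1.1).1 p.2) :=
    PT.comp (f := fun p : (W × W × ℕ) × (ℕ × List W) => ((P p.1.1).1, p.2)) V4_pt_gstep
      (by fun_prop)
  have hL : PT (fun t : W × W × ℕ => (P t.1).1) := by fun_prop
  have hc : PB (fun t : W × W × ℕ =>
      sz ((0, t.2.1 :: List.replicate (P t.1).2.1 []) : ℕ × List W) +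
      (min ((t.2.1.length + 2) ^ (P t.1).2.2) t.2.2) * (sz (P t.1).1 + 6)) :=
    hg.size.add (hn.nat_pb.mul (hL.size.add (PB.const _)))
  have h := pt_iter hn hg hs hc (fun t i hi => by
    refine le_trans (X7_sz_iter (P t.1).1 _ i) ?_
    exact Nat.add_le_add_left (Nat.mul_le_mul_right _ hi) _)
  have h4 : PT (fun t : W × W × ℕ =>
      (gstep (P t.1).1)^[min ((t.2.1.length + 2) ^ (P t.1).2.2) t.2.2]
        ((0, t.2.1 :: List.replicate (P t.1).2.1 []) : ℕ × List W)) := h
  have h5 : PT (fun t : W × W × ℕ =>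
      ((gstep (P t.1).1)^[min ((t.2.1.length + 2) ^ (P t.1).2.2) t.2.2]
        ((0, t.2.1 :: List.replicate (P t.1).2.1 []) : ℕ × List W)).2.headD []) := by
    fun_prop
  exact h5

theorem V4_getD (l : List W) (k m : ℕ) (h : ∀ s ∈ l, s.length ≤ m) :
    (l.getD k []).length ≤ m := by
  by_cases hk : k < l.length
  · rw [List.getD_eq_getElem _ _ hk]
    exact h _ (List.getElem_mem hk)
  · rw [List.getD_eq_default _ _ (by omega)]
    exact Nat.zero_le _

theorem V4_set (l : List W) (k m : ℕ) (x : W) (h : ∀ s ∈ l, s.length ≤ m) (hx : x.length ≤ m + 1) :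
    ∀ s ∈ l.set k x, s.length ≤ m + 1 := by
  intro s hs
  rcases List.mem_or_eq_of_mem_set hs with h1 | h1
  · exact (h s h1).trans (Nat.le_succ m)
  · rw [h1]
    exact hx

theorem V4_step (L : List Ins) (c : ℕ × List W) (m : ℕ) (h : ∀ s ∈ c.2, s.length ≤ m) :
    ∀ s ∈ (gstep L c).2, s.length ≤ m + 1 := by
  have h0 : ∀ s ∈ c.2, s.length ≤ m + 1 := fun s hs => (h s hs).trans (Nat.le_succ m)
  rw [X7_gstep]
  cases hL : L[c.1]? with
  | none => exact h0
  | some i =>
    rw [Option.elim_some]
    obtain ⟨op, k, b, j0, j1, j2⟩ := i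
    have h1 := V4_getD c.2 k m h
    have h2 : ∀ s ∈ c.2.set k (b :: c.2.getD k []), s.length ≤ m + 1 := by
      refine V4_set c.2 k m _ h ?_
      rw [List.length_cons]
      omega
    have h3 : ∀ s ∈ c.2.set k (c.2.getD k []).tail, s.length ≤ m + 1 := by
      refine V4_set c.2 k m _ h ?_
      rw [List.length_tail]
      omega
    simp only [X7_st]
    cases eqb op 0
    · cases eqb op 1
      · cases (c.2.getD k []).isEmpty
        · cases (c.2.getD k []).headD false
          · simpa only [cond_false] using h3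
          · simpa only [cond_false, cond_true] using h3
        · simpa only [cond_false, cond_true] using h0
      · simpa only [cond_false, cond_true] using h2
    · simpa only [cond_true] using h0

theorem V4_iter (L : List Ins) (c : ℕ × List W) (m : ℕ) (h : ∀ s ∈ c.2, s.length ≤ m) (i : ℕ) :
    ∀ s ∈ ((gstep L)^[i] c).2, s.length ≤ m + i := by
  induction i with
  | zero => exact h
  | succ i ih =>
    rw [iterate_succ_apply']
    exact V4_step L _ (m + i) ih

theorem V4 (hV3 : V3_stmt) (hX9 : X9_stmt) : V4_stmt := by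
  obtain ⟨h1, h2, h3⟩ := hV3
  refine ⟨V4_pt parse h1, ?_, ?_, ?_, ?_⟩
  · intro p w N hN
    have h4 : (w.length + 2) ^ (parse p).2.2 ≤ N :=
      (Nat.pow_le_pow_right (by omega) (h3 p)).trans hN
    unfold EWc evc EW ev
    rw [min_eq_left h4]
  · intro p w
    unfold EW ev
    set n := (w.length + 2) ^ (parse p).2.2 with hn
    have h4 : n ≤ (w.length + 2) ^ p.length := Nat.pow_le_pow_right (by omega) (h3 p)
    have h5 := V4_iter (parse p).1 (0, w :: List.replicate (parse p).2.1 []) w.length (by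
      intro s hs
      rcases List.mem_cons.mp hs with h6 | h6
      · rw [h6]
      · rw [List.eq_of_mem_replicate h6]
        exact Nat.zero_le _) n
    rcases h6 : ((gstep (parse p).1)^[n] (0, w :: List.replicate (parse p).2.1 [])).2 with _ | ⟨s, l⟩
    · exact Nat.zero_le _
    · rw [h6] at h5
      rw [List.headD_cons]
      exact (h5 s (List.mem_cons_self)).trans (Nat.add_le_add_left h4 _)
  · intro f hf
    obtain ⟨k, hk⟩ := hX9.2 f hf
    obtain ⟨p, hp⟩ := h2 ((Encodable.decode (α := List Ins × ℕ × ℕ) k).getD ([], 0, 0))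
    refine ⟨p, ?_⟩
    rw [← hk]
    funext w
    unfold EW
    rw [hp]
    rfl
  · intro p
    exact X7 (parse p)

end Pool.Agent.RI
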