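import Pool.Agent.helper55.RI.Spec

/-! # Project ri: module X9, the functions `E k` are exactly the `PT` functions -/

set_option autoImplicit false

namespace Pool.Agent.RI

open Pool.Agent.helper62 Prog Function Pool.Agent.helper81.PL

/-- X9. -/
theorem X9 (h1 : X1_stmt) (h6 : X6_stmt) (h7 : X7_stmt) : X9_stmt := by
  refine ⟨fun k => h7 _, fun f hf => ?_⟩
  obtain ⟨q, hq⟩ := h6 f (h1 f hf)
  refine ⟨Encodable.encode q, ?_⟩
  funext w
  have e : (Encodable.decode (α := List Ins × ℕ × ℕ) (Encodable.encode q)).getD ([], 0, 0) = q := by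
    rw [Encodable.encodek]; rfl
  change ev ((Encodable.decode (α := List Ins × ℕ × ℕ) (Encodable.encode q)).getD ([], 0, 0)) w = f w
  rw [e, hq]

end Pool.Agent.RI
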